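import Pool.Agent.H234.MM.W
import Pool.Agent.Results.MP_a54f13_nt.LimitLaws

/-!
# Absolute moments of Maass forms: plane waves are extremal (MP_a54f13_nt)

`HH` is the upper half plane, `mu Ω` the hyperbolic area `dx dy / y²` on `Ω` and `FD` the interior
of the standard fundamental domain of the modular group (definitions of the file `LimitLaws`);
`avg Ω ψ F` is the mean of `F` over `Ω` for the hyperbolic area with a weight `ψ ≥ 0`.
`f n` are real solutions of `-y²(∂x² + ∂y²) f = (1/4 + t_n²) f` in an open subset `Ω` of the upper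
half plane, `t_n → ∞`, with bounded mean squares.

`kap q` is the mean of `|cos t|^q`, and `mn Φ r` the mean of `Φ (r cos t)`, for `0 ≤ t ≤ π`.
`Cls Φ L`: `Φ` is smooth and even with `|Φ''| ≤ L`; `M0 Φ`: `Φ'/x` is nondecreasing on `(0, ∞)`;
`M1 Φ`: `(x Φ')'/x` is nondecreasing on `(0, ∞)`.

The theorem compares the values of `f n` with the values of the cosine `r cos t` of the same mean
square (`r² = 2 avg f²`): up to errors tending to zero, the mean of `Φ (f)` is at least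
`mn Φ r`, the mean of `|f|^q` is at most `kap q r^q` for `0 < q < 2` and at least `kap q r^q` for
`q > 2`. Quantum unique ergodicity is not used. For Hecke-Maass cusp forms of mean square one on
the modular surface (`Ω = FD`, `ψ = 1`) the mean of `f²` is `1`; by quantum unique ergodicity the
same holds in the limit for every weight `ψ`.

Proof idea (project of helper73): for the Gaussian-free comparison one looks for coefficients
`a`, `b`, functions of `x = f` and `s = |∇f|² / (lam ρ)`, such that the divergence of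
`a ∇f + b ∇(f² + |∇f|²/(lam ρ))` is at least `mn Φ √(x² + s) - Φ (x)` up to small terms. They
exist for all `Φ` as above. The rest is Jensen's inequality.
-/

set_option autoImplicit false
open MeasureTheory Filter Topology Complex
open scoped ContDiff ENNReal

namespace Pool.Agent.Results.MP_a54f13_nt.AbsoluteMoments

noncomputable section

open Pool.Agent.Results.MP_a52643_an.AbsoluteContinuity (lapl)
open Pool.Agent.Results.MP_a54f13_nt.LimitLaws (HH FD mu)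
open Pool.Agent.Q73.PW (mn kap Cls M0 M1)
open Pool.Agent.H234.MM

/-- the mean of `F` over `Ω` for the hyperbolic area with the weight `ψ` -/
def avg (Ω : Set ℂ) (ψ F : ℂ → ℝ) : ℝ := (∫ z, ψ z * F z ∂(mu Ω)) / ∫ z, ψ z ∂(mu Ω)

/-- the mean of a nonnegative function, possibly infinite -/
def lavg (Ω : Set ℂ) (ψ F : ℂ → ℝ) : ℝ≥0∞ :=
  (∫⁻ z, ENNReal.ofReal (ψ z * F z) ∂(mu Ω)) / ∫⁻ z, ENNReal.ofReal (ψ z) ∂(mu Ω)

section

variable {Ω : Set ℂ} {ψ : ℂ → ℝ}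

lemma im_pos (hH : Ω ⊆ HH) {z : ℂ} (hz : z ∈ Ω) : 0 < z.im := hH hz

lemma cρ (hH : Ω ⊆ HH) : ContDiffOn ℝ ∞ (fun z : ℂ => 1 / z.im ^ 2) Ω := by
  have : ContDiff ℝ ∞ (fun z : ℂ => z.im) := imCLM.contDiff
  exact contDiffOn_const.div (this.pow 2).contDiffOn fun z hz => by
    have := im_pos hH hz
    positivity

lemma ρpos (hH : Ω ⊆ HH) : ∀ z ∈ Ω, (0 : ℝ) < 1 / z.im ^ 2 := fun z hz => by
  have := im_pos hH hz
  positivity

/-- the two measures -/
lemma mu_eq : mu Ω = W Ω (fun z => 1 / z.im ^ 2) := rfl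

lemma mu_int (hΩ : IsOpen Ω) (hH : Ω ⊆ HH) (F : ℂ → ℝ) :
    ∫ z, F z ∂(mu Ω) = ∫ z in Ω, 1 / z.im ^ 2 * F z := by
  rw [mu_eq, W_int hΩ (cρ hH).continuousOn fun z hz => (ρpos hH z hz).le]

lemma mu_intg (hΩ : IsOpen Ω) (hH : Ω ⊆ HH) (F : ℂ → ℝ) :
    Integrable F (mu Ω) ↔ IntegrableOn (fun z => 1 / z.im ^ 2 * F z) Ω := by
  rw [mu_eq, W_intg hΩ (cρ hH).continuousOn fun z hz => (ρpos hH z hz).le]

/-- the weighted measure -/
lemma W_eq (hΩ : IsOpen Ω) (hH : Ω ⊆ HH) (cψ : ContinuousOn ψ Ω) (ψ0 : ∀ z ∈ Ω, 0 ≤ ψ z)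
    (F : ℂ → ℝ) : ∫ z, F z ∂(W Ω fun z => ψ z * (1 / z.im ^ 2)) = ∫ z, ψ z * F z ∂(mu Ω) := by
  rw [mu_int hΩ hH, W_int (g := fun z => ψ z * (1 / z.im ^ 2)) hΩ (cψ.mul (cρ hH).continuousOn)
    fun z hz => mul_nonneg (ψ0 z hz) (ρpos hH z hz).le]
  congr 1; funext z; ring

lemma W_meq (hΩ : IsOpen Ω) (hH : Ω ⊆ HH) (cψ : ContinuousOn ψ Ω) (ψ0 : ∀ z ∈ Ω, 0 ≤ ψ z)
    {F : ℂ → ℝ} (cF : ContinuousOn F Ω) : ∫⁻ z, ENNReal.ofReal (F z)
      ∂(W Ω fun z => ψ z * (1 / z.im ^ 2)) = ∫⁻ z, ENNReal.ofReal (ψ z * F z) ∂(mu Ω) := by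
  have mΩ := hΩ.measurableSet
  have m1 : AEMeasurable (fun z => ENNReal.ofReal (ψ z * (1 / z.im ^ 2))) (volume.restrict Ω) :=
    ((cψ.mul (cρ hH).continuousOn).aemeasurable mΩ).ennreal_ofReal
  have m2 : AEMeasurable (fun z : ℂ => ENNReal.ofReal (1 / z.im ^ 2)) (volume.restrict Ω) :=
    ((cρ hH).continuousOn.aemeasurable mΩ).ennreal_ofReal
  have m3 : AEMeasurable (fun z => ENNReal.ofReal (F z)) (volume.restrict Ω) :=
    (cF.aemeasurable mΩ).ennreal_ofReal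
  have m4 : AEMeasurable (fun z => ENNReal.ofReal (ψ z * F z)) (volume.restrict Ω) :=
    ((cψ.mul cF).aemeasurable mΩ).ennreal_ofReal
  rw [mu_eq]
  unfold W
  rw [lintegral_withDensity_eq_lintegral_mul₀ m1 m3, lintegral_withDensity_eq_lintegral_mul₀ m2 m4]
  refine lintegral_congr_ae ((ae_restrict_iff' mΩ).2 (ae_of_all _ fun z hz => ?_))
  show ENNReal.ofReal (ψ z * (1 / z.im ^ 2)) * ENNReal.ofReal (F z) =
    ENNReal.ofReal (1 / z.im ^ 2) * ENNReal.ofReal (ψ z * F z)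
  have h1 := ψ0 z hz
  have h2 := (ρpos hH z hz).le
  rw [← ENNReal.ofReal_mul (mul_nonneg h1 h2), ← ENNReal.ofReal_mul h2]
  congr 1; ring

end

/-- **Absolute moments of Maass forms.** -/
theorem result : (IsOpen FD ∧ FD.Nonempty ∧ FD ⊆ HH ∧ mu FD Set.univ ≠ ⊤) ∧
    ∀ (Ω : Set ℂ) (ψ : ℂ → ℝ) (B : ℝ) (t : ℕ → ℝ) (f : ℕ → ℂ → ℝ), IsOpen Ω → Ω ⊆ HH →
    ContinuousOn ψ Ω → (∀ z ∈ Ω, 0 ≤ ψ z) → Integrable ψ (mu Ω) → 0 < ∫ z, ψ z ∂(mu Ω) →
    Tendsto t atTop atTop → (∀ n, ContDiffOn ℝ ∞ (f n) Ω) →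
    (∀ n, ∀ z ∈ Ω, -(z.im ^ 2 * lapl (f n) z) = (1 / 4 + t n ^ 2) * f n z) →
    (∀ n, Integrable (fun z => ψ z * f n z ^ 2) (mu Ω) ∧ avg Ω ψ (fun z => f n z ^ 2) ≤ B) →
    ∀ η : ℝ, 0 < η →
      ((∀ q : ℝ, 0 < q → q < 2 → ∀ᶠ n in atTop, avg Ω ψ (fun z => |f n z| ^ q) ≤
          kap q * (2 * avg Ω ψ (fun z => f n z ^ 2)) ^ (q / 2) + η) ∧
        (∀ q : ℝ, 2 < q → ∀ᶠ n in atTop,
          ENNReal.ofReal (kap q * (2 * avg Ω ψ (fun z => f n z ^ 2)) ^ (q / 2)) ≤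
            lavg Ω ψ (fun z => |f n z| ^ q) + ENNReal.ofReal η) ∧
        ∀ (Φ : ℝ → ℝ) (L : ℝ), Cls Φ L → M0 Φ → M1 Φ → ∀ᶠ n in atTop,
          mn Φ √(2 * avg Ω ψ (fun z => f n z ^ 2)) ≤ avg Ω ψ (fun z => Φ (f n z)) + η) ∧
      (Tendsto (fun n => avg Ω ψ (fun z => f n z ^ 2)) atTop (𝓝 1) →
        (∀ᶠ n in atTop, avg Ω ψ (fun z => |f n z|) ≤ 2 * √2 / Real.pi + η) ∧
        (∀ q : ℝ, 0 < q → q < 2 → ∀ᶠ n in atTop, avg Ω ψ (fun z => |f n z| ^ q) ≤
          kap q * 2 ^ (q / 2) + η) ∧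
        (∀ q : ℝ, 2 < q → ∀ᶠ n in atTop, ENNReal.ofReal (kap q * 2 ^ (q / 2)) ≤
            lavg Ω ψ (fun z => |f n z| ^ q) + ENNReal.ofReal η)) := by
  refine ⟨Pool.Agent.Results.MP_a54f13_nt.LimitLaws.result.1,
    fun Ω ψ B t f oΩ hH cψ ψ0 iψ pψ ht sf eq hB => ?_⟩
  obtain ⟨μ, hμ⟩ : ∃ μ : Measure ℂ, μ = W Ω fun z => ψ z * (1 / z.im ^ 2) := ⟨_, rfl⟩
  obtain ⟨V, hV⟩ : ∃ V : ℝ, V = ∫ z, ψ z ∂(mu Ω) := ⟨_, rfl⟩
  have V0 : 0 < V := by rw [hV]; exact pψ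
  have g0 : ∀ z ∈ Ω, 0 ≤ ψ z * (1 / z.im ^ 2) := fun z hz =>
    mul_nonneg (ψ0 z hz) (ρpos hH z hz).le
  have ig : IntegrableOn (fun z => ψ z * (1 / z.im ^ 2)) Ω := by
    have := (mu_intg oΩ hH ψ).1 iψ
    refine this.congr_fun (fun z _ => ?_) oΩ.measurableSet
    ring
  have fin : IsFiniteMeasure μ := by rw [hμ]; exact W_fin ig
  have e0 : ∀ F : ℂ → ℝ, ∫ z in Set.univ, F z ∂μ = ∫ z, ψ z * F z ∂(mu Ω) := fun F => by
    rw [Measure.restrict_univ, hμ, W_eq oΩ hH cψ ψ0]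
  have eV : (μ Set.univ).toReal = V := by
    have h1 := e0 fun _ => 1
    rw [setIntegral_const, smul_eq_mul, mul_one] at h1
    simp only [mul_one] at h1
    rw [hV, ← h1]
    rfl
  have eA : ∀ F : ℂ → ℝ, (∫ z in Set.univ, F z ∂μ) / (μ Set.univ).toReal = avg Ω ψ F := fun F => by
    rw [e0, eV, hV]; rfl
  have eA2 : ∀ n, (2 * ∫ z in Set.univ, f n z ^ 2 ∂μ) / (μ Set.univ).toReal =
      2 * avg Ω ψ (fun z => f n z ^ 2) := fun n => by
    rw [mul_div_assoc, eA]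
  have S0 : ∀ n, 0 ≤ avg Ω ψ (fun z => f n z ^ 2) := fun n => by
    rw [← eA]
    exact div_nonneg (integral_nonneg fun z => sq_nonneg _) ENNReal.toReal_nonneg
  have dom : WDom Ω (fun z => 1 / z.im ^ 2) ψ (fun n => 1 / 4 + t n ^ 2) f (B * V) := by
    refine ⟨oΩ, cρ hH, ρpos hH, ?_, sf, fun n z hz => ?_, cψ, ψ0, ig, fun n => ?_, fun n => ?_⟩
    · exact tendsto_atTop_add_const_left _ _ ((tendsto_pow_atTop two_ne_zero).comp ht)
    · have h1 := eq n z hz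
      have h2 := im_pos hH hz
      have h3 : z.im ^ 2 ≠ 0 := by positivity
      have h4 : lapl (f n) z = -((1 / 4 + t n ^ 2) * f n z) / z.im ^ 2 := by
        rw [eq_div_iff h3]
        linarith
      rw [h4]
      field_simp
      ring
    · have := (mu_intg oΩ hH _).1 (hB n).1
      refine this.congr_fun (fun z _ => ?_) oΩ.measurableSet
      show 1 / z.im ^ 2 * (ψ z * f n z ^ 2) = ψ z * (1 / z.im ^ 2) * f n z ^ 2
      ring
    · have h1 := (hB n).2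
      rw [avg, ← hV, div_le_iff₀ V0, mu_int oΩ hH] at h1
      refine le_trans (le_of_eq ?_) h1
      congr 1; funext z; ring
  have cmp := dom.cmp
  have pV : 0 < (μ Set.univ).toReal := by rw [eV]; exact V0
  have nt : μ Set.univ ≠ ⊤ := measure_ne_top _ _
  rw [← hμ] at cmp
  have mf : ∀ n, AEStronglyMeasurable (f n) (μ.restrict Set.univ) := fun n => by
    rw [Measure.restrict_univ, hμ]
    exact W_meas oΩ (sf n).continuousOn
  have hi : ∀ n, IntegrableOn (fun z => f n z ^ 2) Set.univ μ := fun n => by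
    rw [integrableOn_univ, hμ, W_intg (g := fun z => ψ z * (1 / z.im ^ 2)) oΩ
      (cψ.mul (cρ hH).continuousOn) g0]
    exact dom.int n
  have hb : ∀ n, ∫ z in Set.univ, f n z ^ 2 ∂μ ≤ B * V := fun n => by
    have := (hB n).2
    rw [← eA, div_le_iff₀ pV, eV] at this
    exact this
  have low : ∀ η : ℝ, 0 < η → ∀ q : ℝ, 0 < q → q < 2 → ∀ᶠ n in atTop,
      avg Ω ψ (fun z => |f n z| ^ q) ≤
        kap q * (2 * avg Ω ψ (fun z => f n z ^ 2)) ^ (q / 2) + η := fun η hη q q0 q2 => by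
    filter_upwards [Pool.Agent.Q73.PW.Gl.low_mean Pool.Agent.Q73.PW.a1 Pool.Agent.Q73.PW.p1 nt pV
      mf hi cmp q0 q2 hη] with n hn
    rw [eA, eA2] at hn
    exact hn
  have high : ∀ η : ℝ, 0 < η → ∀ q : ℝ, 2 < q → ∀ᶠ n in atTop,
      ENNReal.ofReal (kap q * (2 * avg Ω ψ (fun z => f n z ^ 2)) ^ (q / 2)) ≤
        lavg Ω ψ (fun z => |f n z| ^ q) + ENNReal.ofReal η := fun η hη q q2 => by
    filter_upwards [Pool.Agent.Q73.PW.Gl.high_mean Pool.Agent.Q73.PW.a1 Pool.Agent.Q73.PW.p2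
      (Pool.Agent.Q73.PW.j3 Pool.Agent.Q73.PW.j1 Pool.Agent.Q73.PW.j2) nt pV hb cmp q2 hη] with n hn
    rw [eA2] at hn
    refine hn.trans (le_of_eq ?_)
    congr 1
    rw [Measure.restrict_univ, lavg]
    congr 1
    · rw [hμ]
      exact W_meq oΩ hH cψ ψ0 (((sf n).continuousOn.abs).rpow_const fun z _ => Or.inr (by linarith))
    · have h1 := W_meq oΩ hH cψ ψ0 (F := fun _ => 1) continuousOn_const
      simp only [ENNReal.ofReal_one, lintegral_const, one_mul, mul_one] at h1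
      rw [hμ]; exact h1
  refine fun η hη => ⟨⟨low η hη, high η hη, fun Φ L hL m0 m1 => ?_⟩, fun hS => ⟨?_, ?_, ?_⟩⟩
  · filter_upwards [Pool.Agent.Q73.PW.Gl.cmp_mean cmp pV hL m0 m1 hη] with n hn
    rw [eA, eA2] at hn
    exact hn
  · have h1 := low (η / 2) (by positivity) 1 one_pos one_lt_two
    have h2 : Tendsto (fun n => kap 1 * (2 * avg Ω ψ (fun z => f n z ^ 2)) ^ ((1 : ℝ) / 2)) atTop
        (𝓝 (kap 1 * (2 * 1) ^ ((1 : ℝ) / 2))) :=
      ((hS.const_mul 2).rpow_const (Or.inr (by norm_num))).const_mul _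
    have e : kap 1 * (2 * 1) ^ ((1 : ℝ) / 2) = 2 * √2 / Real.pi := by
      rw [Pool.Agent.Q73.PW.a1.2.2.2.1, mul_one, ← Real.sqrt_eq_rpow]; ring
    rw [e] at h2
    filter_upwards [h1, h2.eventually (gt_mem_nhds (show 2 * √2 / Real.pi <
      2 * √2 / Real.pi + η / 2 by linarith))] with n a b
    simp only [Real.rpow_one] at a
    linarith
  · intro q q0 q2
    have h1 := low (η / 2) (by positivity) q q0 q2
    have h2 : Tendsto (fun n => kap q * (2 * avg Ω ψ (fun z => f n z ^ 2)) ^ (q / 2)) atTop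
        (𝓝 (kap q * (2 * 1) ^ (q / 2))) :=
      ((hS.const_mul 2).rpow_const (Or.inr (by positivity))).const_mul _
    rw [mul_one] at h2
    filter_upwards [h1, h2.eventually (gt_mem_nhds (show kap q * 2 ^ (q / 2) <
      kap q * 2 ^ (q / 2) + η / 2 by linarith))] with n a b
    linarith
  · intro q q2
    have h1 := high (η / 2) (by positivity) q q2
    have h2 : Tendsto (fun n => kap q * (2 * avg Ω ψ (fun z => f n z ^ 2)) ^ (q / 2)) atTop
        (𝓝 (kap q * (2 * 1) ^ (q / 2))) :=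
      ((hS.const_mul 2).rpow_const (Or.inr (by linarith))).const_mul _
    rw [mul_one] at h2
    filter_upwards [h1, h2.eventually (lt_mem_nhds (show kap q * 2 ^ (q / 2) - η / 2 <
      kap q * 2 ^ (q / 2) by linarith))] with n a b
    calc ENNReal.ofReal (kap q * 2 ^ (q / 2)) ≤ ENNReal.ofReal
          (kap q * (2 * avg Ω ψ (fun z => f n z ^ 2)) ^ (q / 2) + η / 2) :=
          ENNReal.ofReal_le_ofReal (by linarith)
      _ ≤ ENNReal.ofReal (kap q * (2 * avg Ω ψ (fun z => f n z ^ 2)) ^ (q / 2)) +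
          ENNReal.ofReal (η / 2) := ENNReal.ofReal_add_le
      _ ≤ lavg Ω ψ (fun z => |f n z| ^ q) + ENNReal.ofReal (η / 2) + ENNReal.ofReal (η / 2) := by
          gcongr
      _ = lavg Ω ψ (fun z => |f n z| ^ q) + ENNReal.ofReal η := by
          rw [add_assoc, ← ENNReal.ofReal_add (by positivity) (by positivity), add_halves]

end

end Pool.Agent.Results.MP_a54f13_nt.AbsoluteMoments
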