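import Pool.Agent.Q255.L2.Almy
import Pool.Agent.Q241.L2.Kode
import Pool.Agent.Q261.L2.Kint
import Pool.Agent.Q241.L2.Kbb
import Pool.Agent.Q151.L2.HY
import Pool.Agent.Q151.L2.CLH
import Pool.Agent.Q193.L2.Tup
import Pool.Agent.Q68.L2.WC
import Pool.Agent.Q65.L2.Fou
import Pool.Agent.Q151.L2.BAL
import Pool.Agent.Q182.L2.QE
import Pool.Agent.Q153.L2.Gmaq
import Pool.Agent.Q68.L2Y.YK
import Pool.Agent.Q68.L2Y.YB
import Pool.Agent.Q65.L2.Ys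
import Pool.Agent.Q176.L2Y.YC
import Pool.Agent.Q38.L2Y.YV
import Pool.Agent.Q38.L2Y.YD
import Pool.Agent.Q38.L2Y.YI1
import Pool.Agent.Q38.L2Y.YI2

/-!
# The local field of the quadratic twists of a Hecke-Maass form on low horocycles is the isometry invariant Gaussian wave

Let `a` be the coefficients of an even or odd Hecke-Maass form with the spectral parameter `T ≥ 1` and
`U_p(x + iy) = √y ∑ a(n) (n/p) K_{iT}(2πny) cos(2πnx)` (or with `sin`) its twist by the quadratic symbol modulo an odd prime `p`. For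
all but few `p ≤ P` the values of `U_p` at the points `x + y z_1, …, x + y z_I`, `z_j` in a fixed compact subset of the
hyperbolic plane, `x` in any interval, have jointly the moments of the centred Gaussian vector with the covariance
`κ (√(2π)/(16π)) ∫_0^∞ exp(-t cosh d(z_i, z_j)) K_{iT}(t) dt/√t`, `d` the hyperbolic distance, up to a power of `y`. This is the
Gaussian random wave of the hyperbolic plane: its law is invariant under all isometries. Used of `a`: the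
mean value `κ` of `a(n)²` with a power saving, `∑_{n ≤ N} a(n)^8 ≤ C N^(1+ε)` and
`∑_{s ≤ S squarefree} ∑_{r ≤ R} a(r² s)^4 ≤ C (R S)^(1+ε)` (known for all Hecke-Maass forms of `SL₂(ℤ)`).
-/

set_option autoImplicit false

namespace Pool.Agent.Results.MP_a54f13_nt.LocalFieldOfTwists

open Finset Filter Topology MeasureTheory
open scoped UpperHalfPlane

/-- the Bessel function `K_{iT}(u) = ∫_0^∞ exp(-u cosh t) cos(T t) dt` -/
noncomputable def K (T u : ℝ) : ℝ :=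
  ∫ t in Set.Ioi (0 : ℝ), Real.exp (-(u * Real.cosh t)) * Real.cos (T * t)

/-- the quadratic symbol `(n / p)` -/
noncomputable def chi (p n : ℕ) : ℝ := (jacobiSym (n : ℤ) p : ℝ)

/-- `√y ∑_{n ≥ 1} a(n) g(n) K_{iT}(2πny) cos(2πnx)` (`b = true`) or with `sin(2πnx)` (`b = false`) -/
noncomputable def U (b : Bool) (T : ℝ) (a g : ℕ → ℝ) (x y : ℝ) : ℝ :=
  √y * ∑' n : ℕ, a (n + 1) * g (n + 1) * K T (2 * Real.pi * ((n + 1) * y)) *
    (if b then Real.cos (2 * Real.pi * (n + 1) * x) else Real.sin (2 * Real.pi * (n + 1) * x))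

/-- the covariance `κ (√(2π)/(16π)) ∫_0^∞ exp(-t cosh d(z, w)) K_{iT}(t) dt/√t`, `d` the hyperbolic distance -/
noncomputable def cov (T κ : ℝ) (z w : ℍ) : ℝ :=
  κ * (√(2 * Real.pi) / (16 * Real.pi)) *
    ∫ t in Set.Ioi (0 : ℝ), Real.exp (-(t * Real.cosh (dist z w))) * K T t / √t

/-- the moments of the standard normal law: `(k-1)‼` for even `k`, `0` for odd `k` -/
def gaussMoment (k : ℕ) : ℕ := if Even k then (k - 1).doubleFactorial else 0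

/-! ## The lemmas -/

theorem kbb : Pool.Agent.Q255.L2.S_KBB := Pool.Agent.Q241.L2.kbb Pool.Agent.Q241.L2.kode Pool.Agent.Q261.L2.t_KINT

theorem qe : Pool.Agent.Q255.L2.S_QE := Pool.Agent.Q182.L2.qe Pool.Agent.Q151.L2.hy

theorem wc : Pool.Agent.Q255.L2.S_WC :=
  Pool.Agent.Q68.L2.wc Pool.Agent.Q151.L2.hy (Pool.Agent.Q151.L2.clh Pool.Agent.Q193.L2.tup Pool.Agent.Q193.L2.par)

theorem yd : Pool.Agent.Q255.L2Y.S_YD :=
  Pool.Agent.Q38.L2Y.yd (Pool.Agent.Q176.L2Y.YC.yc (Pool.Agent.Q153.L2.gmaq qe) (Pool.Agent.Q68.L2Y.yb wc)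
    Pool.Agent.Q65.L2.Fou.fou (Pool.Agent.Q65.L2Y.ys qe)) Pool.Agent.Q38.L2Y.yv Pool.Agent.Q151.L2.bal

/-- the power of two above `t` -/
theorem pow_above {t : ℝ} (ht : 1 ≤ t) : ∃ J : ℕ, t ≤ 2 ^ J ∧ (2 : ℝ) ^ J ≤ 2 * t := by
  obtain ⟨n, h1, h2⟩ := exists_nat_pow_near ht (by norm_num : (1 : ℝ) < 2)
  refine ⟨n + 1, h2.le, ?_⟩
  rw [pow_succ]
  linarith

/-- the scale of `y` -/
theorem scale {y : ℝ} (hy : 0 < y) (hy1 : y ≤ 1) : ∃ J : ℕ, 1 / y ≤ 2 ^ J ∧ (2 : ℝ) ^ J ≤ 2 / y ∧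
    (2 : ℝ) ^ (-(J : ℝ)) ≤ y ∧ y ≤ 2 * (2 : ℝ) ^ (-(J : ℝ)) := by
  obtain ⟨J, h1, h2⟩ := pow_above (one_le_one_div hy hy1)
  have h3 : (2 : ℝ) ^ (-(J : ℝ)) = 1 / 2 ^ J := by
    rw [Real.rpow_neg (by norm_num), Real.rpow_natCast, one_div]
  have h4 : (0 : ℝ) < 2 ^ J := by positivity
  refine ⟨J, h1, by rw [mul_one_div] at h2; exact h2, ?_, ?_⟩
  · rw [h3, one_div_le h4 hy]
    exact h1
  · rw [h3, mul_one_div, le_div_iff₀ h4]
    have h5 : y * 2 ^ J ≤ y * (2 * (1 / y)) := mul_le_mul_of_nonneg_left h2 hy.le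
    have h6 : y * (2 * (1 / y)) = 2 := by field_simp
    linarith

theorem two_rpow_le {c y : ℝ} {J : ℕ} (hc : 0 ≤ c) (h : (2 : ℝ) ^ (-(J : ℝ)) ≤ y) :
    (2 : ℝ) ^ (-(c * J)) ≤ y ^ c :=
  calc (2 : ℝ) ^ (-(c * J)) = ((2 : ℝ) ^ (-(J : ℝ))) ^ c := by
        rw [← Real.rpow_mul (by norm_num)]
        congr 1
        ring
    _ ≤ y ^ c := Real.rpow_le_rpow (by positivity) h hc

theorem cov_eq (T κ : ℝ) (hT : 1 ≤ T) (b : Bool) (z w : ℍ) :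
    Pool.Agent.Q255.L2Y.cv κ (fun u => K T (2 * Real.pi * u)) (fun u => K T (2 * Real.pi * u)) b b z.im w.im
      (z.re - w.re) = cov T κ z w := by
  have h1 := Pool.Agent.Q38.L2Y.yi2 Pool.Agent.Q38.L2Y.yi1 Pool.Agent.Q241.L2.kode kbb T z.im w.im (z.re - w.re) hT
    z.im_pos w.im_pos
  have h2 : Real.cosh (dist z w) = (z.im ^ 2 + w.im ^ 2 + (z.re - w.re) ^ 2) / (2 * z.im * w.im) := by
    have hz := z.im_pos
    have hw := w.im_pos
    have h3 : dist (z : ℂ) w ^ 2 = (z.re - w.re) ^ 2 + (z.im - w.im) ^ 2 := by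
      rw [Complex.dist_eq, ← Complex.normSq_eq_norm_sq, Complex.normSq_apply]
      simp
      ring
    rw [UpperHalfPlane.cosh_dist, h3]
    field_simp
    ring
  unfold Pool.Agent.Q255.L2Y.cv Pool.Agent.Q255.L2Y.tr cov
  simp only [if_true]
  rw [h2, mul_assoc (κ / 2)]
  refine (congrArg (fun t => κ / 2 * t) h1).trans ?_
  show κ / 2 * (√(2 * Real.pi) / (8 * Real.pi) * ∫ x in Set.Ioi (0 : ℝ),
      Real.exp (-(x * ((z.im ^ 2 + w.im ^ 2 + (z.re - w.re) ^ 2) / (2 * z.im * w.im)))) * K T x / √x) = _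
  ring

/-- **The local field of the quadratic twists of a Hecke-Maass form on low horocycles.**

For all `a` with `∑_{n ≤ N} a(n)² = κ N + O(N^(1-η))` and the bounds for the mean values of order `8` and, along `r² s`, of order
`4`, every compact subset `Ω` of the upper half plane, all `k` and `I ≥ 1` there are `c > 0`, `C₁` such that for every `B ≥ 0`
there are `K₀`, `C` such that for all `P` and `Z ≥ 1`: for all but at most `C P Z^(-B)` of the odd primes `p ≤ P`, both parities,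
all `y ≤ 1/Z` with `(2/y)^K₀ ≤ P`, all `z_1, …, z_I ∈ Ω`, all real `|l_j| ≤ 1` and all `0 ≤ α ≤ β ≤ 1` the `k`-th moment over
`α ≤ x ≤ β` of `∑_j l_j U_p(x + y z_j)` is `(β - α) C_k (∑_{i,j} l_i l_j cov(z_i, z_j))^(k/2) + O(y^c)`. -/
theorem result :
    ∀ (T : ℝ) (a : ℕ → ℝ) (κ : ℝ), 1 ≤ T →
      (∃ η C : ℝ, 0 < η ∧ ∀ N : ℕ, 1 ≤ N → |∑ n ∈ Icc 1 N, a n ^ 2 - κ * N| ≤ C * (N : ℝ) ^ (1 - η)) →
      (∀ ε : ℝ, 0 < ε → ∃ C : ℝ, ∀ N : ℕ, 1 ≤ N → ∑ n ∈ Icc 1 N, a n ^ 8 ≤ C * (N : ℝ) ^ ε * N) →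
      (∀ ε : ℝ, 0 < ε → ∃ C : ℝ, ∀ R S : ℕ, 1 ≤ R → 1 ≤ S →
        ∑ s ∈ (Icc 1 S).filter Squarefree, ∑ r ∈ Icc 1 R, a (r ^ 2 * s) ^ 4 ≤
          C * ((R : ℝ) * S) ^ ε * (R * S)) →
      ∀ Ω : Set ℍ, IsCompact Ω → ∀ k I : ℕ, 1 ≤ I → ∃ c C₁ : ℝ, 0 < c ∧
        ∀ B : ℝ, 0 ≤ B → ∃ (K₀ : ℕ) (C : ℝ), ∀ (P : ℕ) (Z : ℝ), 1 ≤ Z →
          ({p : ℕ | p ≤ P ∧ p.Prime ∧ p ≠ 2 ∧ ∃ (b : Bool) (z : Fin I → ℍ) (l : Fin I → ℝ) (y α β : ℝ),
            0 < y ∧ Z ≤ 1 / y ∧ (2 / y) ^ K₀ ≤ P ∧ (∀ j, z j ∈ Ω) ∧ (∀ j, |l j| ≤ 1) ∧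
              0 ≤ α ∧ α ≤ β ∧ β ≤ 1 ∧
              C₁ * y ^ c <
                |(∫ x in α..β, (∑ j, l j * U b T a (chi p) (x + y * (z j).re) (y * (z j).im)) ^ k) -
                  (β - α) * (gaussMoment k * √(∑ i, ∑ j, l i * l j * cov T κ (z i) (z j)) ^ k)|}.ncard : ℝ) ≤
            C * P * Z ^ (-B) := by
  intro T a κ hT hgram h8 h4 Ω hΩ k I hI
  classical
  rcases Ω.eq_empty_or_nonempty with h0 | h0
  · subst h0
    refine ⟨1, 0, one_pos, fun B _ => ⟨0, 0, fun P Z _ => ?_⟩⟩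
    rw [Set.ncard_eq_zero (Set.finite_le_nat P |>.subset fun p hp => hp.1) |>.2]
    · simp
    · rw [Set.eq_empty_iff_forall_notMem]
      rintro p ⟨-, -, -, b, z, l, y, α, β, -, -, -, hz, -⟩
      exact absurd (hz ⟨0, hI⟩) (Set.notMem_empty _)
  obtain ⟨z₀, hz₀, h1⟩ := hΩ.exists_isMinOn h0 UpperHalfPlane.continuous_im.continuousOn
  obtain ⟨z₁, hz₁, h2⟩ := hΩ.exists_isMaxOn h0 UpperHalfPlane.continuous_im.continuousOn
  obtain ⟨z₂, hz₂, h3⟩ := hΩ.exists_isMaxOn h0 (UpperHalfPlane.continuous_re.abs).continuousOn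
  obtain ⟨η, C₀, hη, hC₀⟩ := hgram
  have hG : Pool.Agent.Q255.L2Y.Gram (fun _ : Unit => a) (fun _ _ => κ) := by
    refine ⟨min η (1 / 2), |C₀|, lt_min hη (by norm_num), (min_le_right _ _).trans_lt (by norm_num),
      fun _ _ N hN => ?_⟩
    have hN1 : (1 : ℝ) ≤ N := by exact_mod_cast hN
    calc |∑ n ∈ Icc 1 N, a n * a n - κ * N| = |∑ n ∈ Icc 1 N, a n ^ 2 - κ * N| := by simp only [sq]
      _ ≤ C₀ * (N : ℝ) ^ (1 - η) := hC₀ N hN
      _ ≤ |C₀| * (N : ℝ) ^ (1 - η) := mul_le_mul_of_nonneg_right (le_abs_self _) (by positivity)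
      _ ≤ |C₀| * (N : ℝ) ^ (1 - min η (1 / 2)) := mul_le_mul_of_nonneg_left
          (Real.rpow_le_rpow_of_exponent_le hN1 (by linarith [min_le_left η (1 / 2)])) (abs_nonneg _)
  have hCoef : Pool.Agent.Q255.L2.Coef (fun _ : Unit => (1 : ℝ)) (fun _ => a) := by
    refine ⟨fun ε hε => ?_, fun ε hε => ?_⟩
    · obtain ⟨C, hC⟩ := h8 ε hε
      exact ⟨C, fun _ N hN => by simpa using hC N hN⟩
    · obtain ⟨C, hC⟩ := h4 ε hε
      exact ⟨C, fun _ R S hR hS => by simpa using hC R S hR hS⟩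
  obtain ⟨c, C₁, hc, hC₁, hA⟩ := yd Unit (fun _ => a) (fun _ u => K T (2 * Real.pi * u))
    (fun _ u => 2 * Real.pi * Pool.Agent.Q255.L2.KB1 T (2 * Real.pi * u)) (fun _ _ => κ) hCoef
    (fun _ => Pool.Agent.Q68.L2Y.yk Pool.Agent.Q241.L2.kode kbb T hT) hG z₀.im z₁.im (|z₂.re| + 1) k I z₀.im_pos
    (h1 hz₁) (by positivity) hI
  refine ⟨c, C₁, hc, fun B hB => ?_⟩
  obtain ⟨K₀, C, hC0, hC⟩ := Pool.Agent.Q255.L2.almy hA hB
  refine ⟨K₀, C, fun P Z hZ => hC P Z _ hZ fun p hp => ?_⟩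
  obtain ⟨hpP, hpp, -, b, z, l, y, α, β, hy, hZy, hyP, hz, hl, hα, hαβ, hβ, hbad⟩ := hp
  have hy1 : y ≤ 1 := (one_le_div hy).1 (hZ.trans hZy)
  obtain ⟨J, hJ1, hJ2, hJ3, hJ4⟩ := scale hy hy1
  refine ⟨hpP, hpp, J, hZy.trans hJ1, ?_, fun hcon => ?_⟩
  · have h5 : ((2 : ℝ) ^ J) ^ K₀ ≤ (2 / y) ^ K₀ := pow_le_pow_left₀ (by positivity) hJ2 K₀
    rw [← pow_mul, mul_comm J K₀] at h5
    exact_mod_cast h5.trans hyP
  · have h6 := hcon (fun _ => ()) (fun _ => b) l (fun j => (z j).re) (fun j => (z j).im) y α β hJ3 hJ4 hl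
      (fun j => (h3 (hz j)).trans (by linarith [le_refl (|z₂.re|)])) (fun j => ⟨h1 (hz j), h2 (hz j)⟩) hα hαβ hβ
    simp only [cov_eq T κ hT] at h6
    refine absurd h6 (not_le.2 ((mul_le_mul_of_nonneg_left (two_rpow_le hc.le hJ3) hC₁).trans_lt hbad))

end Pool.Agent.Results.MP_a54f13_nt.LocalFieldOfTwists
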