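import Pool.Agent.Q255.L2.Almz
import Pool.Agent.Q241.L2.Kode
import Pool.Agent.Q261.L2.Kint
import Pool.Agent.Q241.L2.Kbb
import Pool.Agent.Q176.L2.KW
import Pool.Agent.Q150.L2.KNB
import Pool.Agent.Q151.L2.HY
import Pool.Agent.Q151.L2.CLH
import Pool.Agent.Q193.L2.Tup
import Pool.Agent.Q68.L2.WC
import Pool.Agent.Q65.L2.Fou
import Pool.Agent.Q151.L2.BAL
import Pool.Agent.Q182.L2.QE
import Pool.Agent.Q275.L2.Snq
import Pool.Agent.Q153.L2.Gmaq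
import Pool.Agent.Q153.L2.Gmdq
import Pool.Agent.Q150.L2.GQd
import Pool.Agent.Q238.L2.GMB2
import Pool.Agent.Q238.L2.GMEQ

/-!
# Gaussian moments of the quadratic twists of all Hecke-Maass forms, with test functions

Let `(T_i, a_i)` be any family of numbers `T_i ≥ 1` and sequences of real coefficients, at most `A X^A` members with
`T_i ≤ X`, with `∑_{n ≤ N} a_i(n)^8 ≤ C (N T_i)^ε N` and
`∑_{s ≤ S squarefree} ∑_{r ≤ R} a_i(r² s)^4 ≤ C (R S T_i)^ε R S` for every `ε > 0` (both are known for all Hecke-Maass forms of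
`SL₂(ℤ)`). For all but at most `C P Z^(-B)` of the odd primes `p ≤ P`: `∫ ψ U^k dμ = C_k ∫ ψ σ^k dμ + O(L T^(-c))` for the twists `U`
by `(n/p)` of all members with `Z ≤ T ≤ P^(1/K)/2` and all test functions `ψ` with the bound and Lipschitz constant `L` and support
in a given rectangle at once; `σ(y)²` is the mean square of the form on the horocycle of height `y`.
-/

set_option autoImplicit false

namespace Pool.Agent.Results.MP_a54f13_nt.QuadraticTwists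

open Finset Filter Topology MeasureTheory

/-- the Bessel function `K_{iT}(u) = ∫_0^∞ exp(-u cosh t) cos(T t) dt` -/
noncomputable def K (T u : ℝ) : ℝ :=
  ∫ t in Set.Ioi (0 : ℝ), Real.exp (-(u * Real.cosh t)) * Real.cos (T * t)

/-- the quadratic symbol `(n / p)` -/
noncomputable def chi (p n : ℕ) : ℝ := (jacobiSym (n : ℤ) p : ℝ)

/-- `e^{πT/2} √y ∑_{n ≥ 1} a(n) g(n) K_{iT}(2πny) cos(2πnx)` -/
noncomputable def evenPart (T : ℝ) (a g : ℕ → ℝ) (x y : ℝ) : ℝ :=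
  Real.exp (Real.pi * T / 2) * √y * ∑' n : ℕ, a (n + 1) * g (n + 1) *
    K T (2 * Real.pi * (n + 1) * y) * Real.cos (2 * Real.pi * (n + 1) * x)

/-- `e^{πT/2} √y ∑_{n ≥ 1} a(n) g(n) K_{iT}(2πny) sin(2πnx)` -/
noncomputable def oddPart (T : ℝ) (a g : ℕ → ℝ) (x y : ℝ) : ℝ :=
  Real.exp (Real.pi * T / 2) * √y * ∑' n : ℕ, a (n + 1) * g (n + 1) *
    K T (2 * Real.pi * (n + 1) * y) * Real.sin (2 * Real.pi * (n + 1) * x)

/-- the even or the odd expansion -/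
noncomputable def U (b : Bool) (T : ℝ) (a g : ℕ → ℝ) (x y : ℝ) : ℝ :=
  if b then evenPart T a g x y else oddPart T a g x y

/-- the moments of the standard normal law: `(k-1)‼` for even `k`, `0` for odd `k` -/
def gaussMoment (k : ℕ) : ℕ := if Even k then (k - 1).doubleFactorial else 0

/-! ## The lemmas -/

theorem kbb : Pool.Agent.Q255.L2.S_KBB := Pool.Agent.Q241.L2.kbb Pool.Agent.Q241.L2.kode Pool.Agent.Q261.L2.t_KINT

theorem kw : Pool.Agent.Q255.L2.S_KW :=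
  Pool.Agent.Q176.L2.KW.kw Pool.Agent.Q241.L2.kode Pool.Agent.Q261.L2.t_KINT kbb

theorem qe : Pool.Agent.Q255.L2.S_QE := Pool.Agent.Q182.L2.qe Pool.Agent.Q151.L2.hy

theorem sn : Pool.Agent.Q255.L2.S_SNQ :=
  Pool.Agent.Q275.L2.snq qe Pool.Agent.Q241.L2.kode kbb kw Pool.Agent.Q150.L2.KNB.kn2

theorem wc : Pool.Agent.Q255.L2.S_WC :=
  Pool.Agent.Q68.L2.wc Pool.Agent.Q151.L2.hy (Pool.Agent.Q151.L2.clh Pool.Agent.Q193.L2.tup Pool.Agent.Q193.L2.par)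

theorem gmc : Pool.Agent.Q255.L2.S_GMCQ :=
  Pool.Agent.Q150.L2.GQ.gmcq (Pool.Agent.Q153.L2.gmaq qe) (Pool.Agent.Q238.L2.GMB2.gmb2 wc kw Pool.Agent.Q150.L2.KNB.kn2) Pool.Agent.Q65.L2.Fou.fou sn
    Pool.Agent.Q241.L2.kode kbb kw

theorem gmd : Pool.Agent.Q255.L2.S_GMDQ :=
  Pool.Agent.Q153.L2.gmdq gmc Pool.Agent.Q151.L2.bal Pool.Agent.Q241.L2.kode kw Pool.Agent.Q150.L2.KNB.kn2

/-- the power of two above `t` -/
theorem pow_above {t : ℝ} (ht : 1 ≤ t) : ∃ J : ℕ, t ≤ 2 ^ J ∧ (2 : ℝ) ^ J ≤ 2 * t := by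
  obtain ⟨n, h1, h2⟩ := exists_nat_pow_near ht (by norm_num : (1 : ℝ) < 2)
  refine ⟨n + 1, h2.le, ?_⟩
  rw [pow_succ]
  linarith

/-- the form of `almz` for sets -/
theorem almz_ncard {Q : ℕ → ℕ → Prop} {r : ℕ} (hAlm : Pool.Agent.Q255.L2.Alm fun J m =>
    Pool.Agent.Q255.L2.Rgh (J + r) m → Q J m) {B : ℝ} (hB : 0 ≤ B) :
    ∃ (K : ℕ) (C : ℝ), 0 ≤ C ∧ ∀ (P : ℕ) (Z : ℝ) (S : Set ℕ), 1 ≤ Z →
      (∀ p ∈ S, p ≤ P ∧ p.Prime ∧ ∃ J : ℕ, Z ≤ 2 ^ J ∧ 2 ^ (K * J) ≤ P ∧ ¬ Q J p) →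
        (S.ncard : ℝ) ≤ C * P * Z ^ (-B) := by
  obtain ⟨K, C, hC0, hC⟩ := Pool.Agent.Q255.L2.almz hAlm hB
  refine ⟨K, C, hC0, fun P Z S hZ hS => ?_⟩
  have hfin : S.Finite := (Set.finite_le_nat P).subset fun p hp => (hS p hp).1
  rw [Set.ncard_eq_toFinset_card S hfin]
  exact hC P Z _ hZ fun p hp => hS p ((Set.Finite.mem_toFinset hfin).1 hp)

theorem two_rpow_le {c X : ℝ} {J : ℕ} (hX : 0 < X) (hc : 0 ≤ c) (hJ : X ≤ 2 ^ J) :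
    (2 : ℝ) ^ (-(c * J)) ≤ X ^ (-c) :=
  calc (2 : ℝ) ^ (-(c * J)) = ((2 : ℝ) ^ J) ^ (-c) := by
        rw [← Real.rpow_natCast 2 J, ← Real.rpow_mul (by norm_num)]
        congr 1
        ring
    _ ≤ X ^ (-c) := Real.rpow_le_rpow_of_nonpos hX hJ (by linarith)

/-- **Gaussian moments of the quadratic twists of all Hecke-Maass forms, with test functions.**

For every family of polynomial size with coefficients bounded in the mean (of order `8`, and of order `4` along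
`r² s`), all `k`, `R`, `0 < y₀ ≤ y₁` there are `c > 0`, `C₁` such that for every `B ≥ 0` there are `K₀`, `C` such that for all
`P` and `Z ≥ 1`: for all but at most `C P Z^(-B)` of the odd primes `p ≤ P`, all members with `T_i ≥ Z` and `(2 T_i)^K₀ ≤ P`, both
parities and all continuous `ψ(x, y)` with `|ψ| ≤ L`, `|ψ(x, y) - ψ(x', y)| ≤ L |x - x'|` and support in `|x| ≤ R`, `y₀ ≤ y ≤ y₁`:
`∫∫ ψ U^k dx dy/y² = C_k ∫∫ ψ σ^k dx dy/y² + O(L T_i^(-c))`, `U` the twist by `(n/p)`, `σ(y)²` the mean square of the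
expansion without twist over `0 ≤ x ≤ 1`. -/
theorem result :
    ∀ (ι : Type) (T : ι → ℝ) (a : ι → ℕ → ℝ) (A : ℝ), (∀ i, 1 ≤ T i) →
      (∀ X : ℝ, 1 ≤ X → {i | T i ≤ X}.Finite ∧ ({i | T i ≤ X}.ncard : ℝ) ≤ A * X ^ A) →
      (∀ ε : ℝ, 0 < ε → ∃ C : ℝ, ∀ (i : ι) (N : ℕ), 1 ≤ N →
        ∑ n ∈ Icc 1 N, a i n ^ 8 ≤ C * ((N : ℝ) * T i) ^ ε * N) →
      (∀ ε : ℝ, 0 < ε → ∃ C : ℝ, ∀ (i : ι) (R S : ℕ), 1 ≤ R → 1 ≤ S →
        ∑ s ∈ (Icc 1 S).filter Squarefree, ∑ r ∈ Icc 1 R, a i (r ^ 2 * s) ^ 4 ≤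
          C * ((R : ℝ) * S * T i) ^ ε * (R * S)) →
      ∀ (k : ℕ) (R y₀ y₁ : ℝ), 0 < y₀ → y₀ ≤ y₁ → ∃ c C₁ : ℝ, 0 < c ∧
        ∀ B : ℝ, 0 ≤ B → ∃ (K₀ : ℕ) (C : ℝ), ∀ (P : ℕ) (Z : ℝ), 1 ≤ Z →
          ({p : ℕ | p ≤ P ∧ p.Prime ∧ p ≠ 2 ∧ ∃ (i : ι) (b : Bool) (ψ : ℝ → ℝ → ℝ) (L : ℝ),
            Z ≤ T i ∧ (2 * T i) ^ K₀ ≤ P ∧ Continuous (fun z : ℝ × ℝ => ψ z.1 z.2) ∧
              (∀ x y, |ψ x y| ≤ L) ∧ (∀ x x' y, |ψ x y - ψ x' y| ≤ L * |x - x'|) ∧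
              (∀ x y, ψ x y ≠ 0 → |x| ≤ R ∧ y₀ ≤ y ∧ y ≤ y₁) ∧
              C₁ * L * T i ^ (-c) <
                |(∫ y in y₀..y₁, (∫ x in (-R)..R, ψ x y * U b (T i) (a i) (chi p) x y ^ k) / y ^ 2) -
                  gaussMoment k * ∫ y in y₀..y₁, (∫ x in (-R)..R, ψ x y) *
                    √(∫ x in (0 : ℝ)..1, U b (T i) (a i) (fun _ => 1) x y ^ 2) ^ k / y ^ 2|}.ncard : ℝ) ≤
            C * P * Z ^ (-B) := by
  intro ι T a A hT hfin h8 h4 k R y₀ y₁ hy₀ hy₁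
  classical
  obtain ⟨r, c, C₁, hc, hC₁, hA⟩ := (Pool.Agent.Q238.L2.gmeq gmd sn) ι T a A ⟨hT, hfin⟩ ⟨h8, h4⟩ k R y₀ y₁ hy₀ hy₁
  refine ⟨c, C₁, hc, fun B hB => ?_⟩
  obtain ⟨K₀, C, hC0, hC⟩ := almz_ncard hA hB
  refine ⟨K₀, C, fun P Z hZ => hC P Z _ hZ fun p hp => ?_⟩
  obtain ⟨hpP, hpp, -, i, b, ψ, L, hZi, hTi, hψ, hψL, hLip, hsupp, hbad⟩ := hp
  obtain ⟨J, hJ1, hJ2⟩ := pow_above (hT i)
  have hT0 : 0 < T i := by linarith [hT i]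
  have hL : 0 ≤ L := (abs_nonneg _).trans (hψL 0 0)
  refine ⟨hpP, hpp, J, hZi.trans hJ1, ?_, fun hcon => ?_⟩
  · have h3 : ((2 : ℝ) ^ J) ^ K₀ ≤ (2 * T i) ^ K₀ := pow_le_pow_left₀ (by positivity) hJ2 K₀
    rw [← pow_mul, mul_comm J K₀] at h3
    exact_mod_cast h3.trans hTi
  · exact absurd (hcon ψ L hψ hψL hLip hsupp i b hJ1 hJ2) (not_le.2
      ((mul_le_mul_of_nonneg_left (two_rpow_le hT0 hc.le hJ1) (mul_nonneg hC₁ hL)).trans_lt hbad))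

end Pool.Agent.Results.MP_a54f13_nt.QuadraticTwists
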