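import Pool.Agent.Q255.L2.Eng
import Pool.Agent.Q241.L2.Kode
import Pool.Agent.Q261.L2.Kint
import Pool.Agent.Q241.L2.Kbb
import Pool.Agent.Q176.L2.KW
import Pool.Agent.Q150.L2.KNB
import Pool.Agent.Q68.L2.SN2
import Pool.Agent.Q13.L2.Gma
import Pool.Agent.Q151.L2.HY
import Pool.Agent.Q151.L2.CLH
import Pool.Agent.Q193.L2.Tup
import Pool.Agent.Q68.L2.WC
import Pool.Agent.Q65.L2.Fou
import Pool.Agent.Q151.L2.BAL
import Pool.Agent.Q176.L2.GMC
import Pool.Agent.Q162.L2.GMD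
import Pool.Agent.Q195.L2.GME

/-!
# Gaussian moments of the random twists of all Hecke-Maass forms, with test functions

Let `f` be completely multiplicative with the values `1`, `-1` at the primes. The signs at the primes may have any
joint law whatsoever with `I(x) ≤ x^{o(1)}`, where `I(x)` is the relative entropy (Kullback-Leibler divergence) of the
law of the signs `f(p)`, `p ≤ x`, to independent fair signs. Let `(T_i, a_i)` be any family of numbers `T_i ≥ 1` and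
sequences of real coefficients, at most `A X^A` members with `T_i ≤ X`, with `∑_{n ≤ N} a_i(n)^8 ≤ C (N T_i)^ε N` and
`∑_{s ≤ S squarefree} ∑_{r ≤ R} a_i(r² s)^4 ≤ C (R S T_i)^ε R S` for every `ε > 0` (both are known for all Hecke-Maass forms of
`SL₂(ℤ)`). Then almost surely `∫ ψ U^k dμ = C_k ∫ ψ σ^k dμ + O(T^(-c))` for the twists `U` of all members, `σ(y)²` the mean square of
the form on the horocycle of height `y`.
-/

set_option autoImplicit false

namespace Pool.Agent.Results.MP_a54f13_nt.RandomTwistsTestFunctions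

open Finset Filter Topology MeasureTheory

/-- the sign at the prime with the number `k` (`2` has the number `0`) -/
def sign (ω : ℕ → Bool) (k : ℕ) : ℝ := if ω k then 1 else -1

/-- `f(n) = ∏_p f(p)^{v_p(n)}`, the completely multiplicative function with the sign `ω k` at the prime with the
number `k` (`Nat.count Nat.Prime p` is the number of the primes less than `p`) -/
noncomputable def f (ω : ℕ → Bool) (n : ℕ) : ℝ :=
  n.factorization.prod fun p j => sign ω (Nat.count Nat.Prime p) ^ j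

/-- `I(x)`: the relative entropy `∑_s q(s) log (2^n q(s))` of the law `q` of the signs at the `n = π(x)` primes
`p ≤ x` to independent fair signs, in nats -/
noncomputable def information (ν : Measure (ℕ → Bool)) (x : ℕ) : ℝ :=
  ∑ s : Fin (Nat.primeCounting x) → Bool, ν.real {ω | ∀ k : Fin (Nat.primeCounting x), ω k = s k} *
    Real.log (2 ^ Nat.primeCounting x *
      ν.real {ω | ∀ k : Fin (Nat.primeCounting x), ω k = s k})

/-- `I(x) ≤ x^{o(1)}` -/
def SmallInformation (ν : Measure (ℕ → Bool)) : Prop :=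
  ∀ ε : ℝ, 0 < ε → ∀ᶠ x : ℕ in atTop, information ν x ≤ (x : ℝ) ^ ε

/-- the Bessel function `K_{iT}(u) = ∫_0^∞ exp(-u cosh t) cos(T t) dt` -/
noncomputable def K (T u : ℝ) : ℝ :=
  ∫ t in Set.Ioi (0 : ℝ), Real.exp (-(u * Real.cosh t)) * Real.cos (T * t)

/-- `e^{πT/2} √y ∑_{n ≥ 1} a(n) g(n) K_{iT}(2πny) cos(2πnx)` -/
noncomputable def evenPart (T : ℝ) (a g : ℕ → ℝ) (x y : ℝ) : ℝ :=
  Real.exp (Real.pi * T / 2) * √y * ∑' n : ℕ, a (n + 1) * g (n + 1) *
    K T (2 * Real.pi * (n + 1) * y) * Real.cos (2 * Real.pi * (n + 1) * x)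

/-- `e^{πT/2} √y ∑_{n ≥ 1} a(n) g(n) K_{iT}(2πny) sin(2πnx)` -/
noncomputable def oddPart (T : ℝ) (a g : ℕ → ℝ) (x y : ℝ) : ℝ :=
  Real.exp (Real.pi * T / 2) * √y * ∑' n : ℕ, a (n + 1) * g (n + 1) *
    K T (2 * Real.pi * (n + 1) * y) * Real.sin (2 * Real.pi * (n + 1) * x)

/-- the even or the odd expansion -/
noncomputable def U (b : Bool) (T : ℝ) (a g : ℕ → ℝ) (x y : ℝ) : ℝ :=
  if b then evenPart T a g x y else oddPart T a g x y

/-- the moments of the standard normal law: `(k-1)‼` for even `k`, `0` for odd `k` -/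
def gaussMoment (k : ℕ) : ℕ := if Even k then (k - 1).doubleFactorial else 0

/-! ## Translation -/

open Pool.Agent.Q255.EP

theorem info_eq (ν : Measure (ℕ → Bool)) [IsProbabilityMeasure ν] (x : ℕ) :
    information ν x = Pool.Agent.Q255.IR.D ν (Nat.primeCounting x) := D_eq_sum ν _

theorem small_iff (ν : Measure (ℕ → Bool)) [IsProbabilityMeasure ν] :
    SmallInformation ν ↔ ∀ ε : ℝ, 0 < ε → ∀ᶠ x : ℕ in atTop,
      Pool.Agent.Q255.IR.D ν (Nat.primeCounting x) ≤ (x : ℝ) ^ ε := by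
  unfold SmallInformation
  simp only [info_eq]

theorem kbb : Pool.Agent.Q255.L2.S_KBB := Pool.Agent.Q241.L2.kbb Pool.Agent.Q241.L2.kode Pool.Agent.Q261.L2.t_KINT

theorem kw : Pool.Agent.Q255.L2.S_KW :=
  Pool.Agent.Q176.L2.KW.kw Pool.Agent.Q241.L2.kode Pool.Agent.Q261.L2.t_KINT kbb

theorem sn : Pool.Agent.Q255.L2.S_SN2 :=
  Pool.Agent.Q68.L2.sn2 Pool.Agent.Q255.L2.t_ENG2 Pool.Agent.Q241.L2.kode kbb kw Pool.Agent.Q150.L2.KNB.kn2

theorem wc : Pool.Agent.Q255.L2.S_WC :=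
  Pool.Agent.Q68.L2.wc Pool.Agent.Q151.L2.hy (Pool.Agent.Q151.L2.clh Pool.Agent.Q193.L2.tup Pool.Agent.Q193.L2.par)

theorem gmc : Pool.Agent.Q255.L2.S_GMC :=
  Pool.Agent.Q176.L2.GMC.gmc (Pool.Agent.Q13.L2M.gma Pool.Agent.Q255.L2.t_ENG2) wc Pool.Agent.Q150.L2.KNB.kn2
    Pool.Agent.Q65.L2.Fou.fou sn Pool.Agent.Q241.L2.kode kbb kw

theorem gmd : Pool.Agent.Q255.L2.S_GMD :=
  Pool.Agent.Q162.L2.GMD.gmd gmc Pool.Agent.Q151.L2.bal Pool.Agent.Q241.L2.kode kw Pool.Agent.Q150.L2.KNB.kn2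

/-- the power of two above `t` -/
theorem pow_above {t : ℝ} (ht : 1 ≤ t) : ∃ J : ℕ, t ≤ 2 ^ J ∧ (2 : ℝ) ^ J ≤ 2 * t := by
  obtain ⟨n, h1, h2⟩ := exists_nat_pow_near ht (by norm_num : (1 : ℝ) < 2)
  refine ⟨n + 1, h2.le, ?_⟩
  rw [pow_succ]
  linarith

/-- **Gaussian moments of the random twists of all Hecke-Maass forms, with test functions.**

For every law of small information and every family of polynomial size with coefficients bounded in the mean (of order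
`8`, and of order `4` along `r² s`): almost surely, for every `f'` equal to `f` at all but finitely many primes, every `k`
and every continuous function `ψ(x, y)`, Lipschitz in `x`, supported in `|x| ≤ R`, `y₀ ≤ y ≤ y₁`, there are `c > 0`, `C` such that
for all members `∫∫ ψ U^k dx dy/y² = C_k ∫∫ ψ σ^k dx dy/y² + O(T^(-c))`, where `σ(y)²` is the mean square of the expansion
without twist over `0 ≤ x ≤ 1`. -/
theorem result :
    ∀ (ν : Measure (ℕ → Bool)) [IsProbabilityMeasure ν], SmallInformation ν →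
      ∀ (ι : Type) (T : ι → ℝ) (a : ι → ℕ → ℝ) (A : ℝ), (∀ i, 1 ≤ T i) →
        (∀ X : ℝ, 1 ≤ X → {i | T i ≤ X}.Finite ∧ ({i | T i ≤ X}.ncard : ℝ) ≤ A * X ^ A) →
        (∀ ε : ℝ, 0 < ε → ∃ C : ℝ, ∀ (i : ι) (N : ℕ), 1 ≤ N →
          ∑ n ∈ Icc 1 N, a i n ^ 8 ≤ C * ((N : ℝ) * T i) ^ ε * N) →
        (∀ ε : ℝ, 0 < ε → ∃ C : ℝ, ∀ (i : ι) (R S : ℕ), 1 ≤ R → 1 ≤ S →
          ∑ s ∈ (Icc 1 S).filter Squarefree, ∑ r ∈ Icc 1 R, a i (r ^ 2 * s) ^ 4 ≤
            C * ((R : ℝ) * S * T i) ^ ε * (R * S)) →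
        ∀ᵐ ω ∂ν, ∀ ω' : ℕ → Bool, {k | ω' k ≠ ω k}.Finite →
          ∀ (k : ℕ) (ψ : ℝ → ℝ → ℝ) (R y₀ y₁ L : ℝ), 0 < y₀ → y₀ ≤ y₁ →
            Continuous (fun z : ℝ × ℝ => ψ z.1 z.2) → (∀ x x' y, |ψ x y - ψ x' y| ≤ L * |x - x'|) →
            (∀ x y, ψ x y ≠ 0 → |x| ≤ R ∧ y₀ ≤ y ∧ y ≤ y₁) →
            ∃ c C : ℝ, 0 < c ∧ ∀ (i : ι) (b : Bool),
              |(∫ y in y₀..y₁, (∫ x in (-R)..R, ψ x y * U b (T i) (a i) (f ω') x y ^ k) / y ^ 2) -
                gaussMoment k * ∫ y in y₀..y₁, (∫ x in (-R)..R, ψ x y) *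
                  √(∫ x in (0 : ℝ)..1, U b (T i) (a i) (fun _ => 1) x y ^ 2) ^ k / y ^ 2| ≤ C * T i ^ (-c) := by
  intro ν _ hν ι T a A hT hfin h8 h4
  refine Pool.Agent.Q255.L2.ae_fin0 (fun ν' _ hν' => ?_) ν ((small_iff ν).1 hν)
  filter_upwards [Pool.Agent.Q195.L2.gme gmd sn ν' hν' ι T a A ⟨hT, hfin⟩ ⟨h8, h4⟩] with ω hω
  exact hω

end Pool.Agent.Results.MP_a54f13_nt.RandomTwistsTestFunctions
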